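import Mathlib
import Pool.Agent.Run7.h539.Wrap

/-!
# Hitchin's conjecture for `sl_n` in every prime degree
-/

set_option autoImplicit false

/-- For every `n` and every `k` such that `2k+1` is prime, the conjecture on primitive invariant
forms and the principal three-dimensional subalgebra holds for `sl_n` in degree `2k+1`. -/
theorem Pool.Agent.Results.MP_a0341c_al.PrimeDegree.result :
    ∀ (n k : ℕ), (2 * k + 1).Prime →
      ∀ (h e f : LieAlgebra.SpecialLinear.sl (Fin n) ℂ),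
      IsSl2Triple h e f →
      (∀ y : LieAlgebra.SpecialLinear.sl (Fin n) ℂ,
          Module.finrank ℂ (LinearMap.ker
            (LieAlgebra.ad ℂ (LieAlgebra.SpecialLinear.sl (Fin n) ℂ) e)) ≤
          Module.finrank ℂ (LinearMap.ker
            (LieAlgebra.ad ℂ (LieAlgebra.SpecialLinear.sl (Fin n) ℂ) y))) →
      ∀ (F : MultilinearMap ℂ
          (fun _ : Option (Fin k) => LieAlgebra.SpecialLinear.sl (Fin n) ℂ) ℂ),
        (∀ (σ : Equiv.Perm (Option (Fin k)))
            (x : Option (Fin k) → LieAlgebra.SpecialLinear.sl (Fin n) ℂ), F (x ∘ σ) = F x) →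
        (∀ (y : LieAlgebra.SpecialLinear.sl (Fin n) ℂ)
            (x : Option (Fin k) → LieAlgebra.SpecialLinear.sl (Fin n) ℂ),
            ∑ i : Option (Fin k), F (Function.update x i ⁅y, x i⁆) = 0) →
        (∃ x : Option (Fin k × Bool) → LieAlgebra.SpecialLinear.sl (Fin n) ℂ,
            (∑ σ : Equiv.Perm (Option (Fin k × Bool)),
              (((Equiv.Perm.sign σ : ℤ) : ℂ) *
                F (fun j : Option (Fin k) => Option.elim j (x (σ none))
                  (fun i => ⁅x (σ (some (i, false))), x (σ (some (i, true)))⁆)))) ≠ 0) →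
        ∃ V : Submodule ℂ (LieAlgebra.SpecialLinear.sl (Fin n) ℂ),
          Module.finrank ℂ V = 2 * k + 1 ∧
          (∀ v ∈ V, ⁅e, v⁆ ∈ V ∧ ⁅h, v⁆ ∈ V ∧ ⁅f, v⁆ ∈ V) ∧
          (∀ W : Submodule ℂ (LieAlgebra.SpecialLinear.sl (Fin n) ℂ), W ≤ V →
            (∀ w ∈ W, ⁅e, w⁆ ∈ W ∧ ⁅h, w⁆ ∈ W ∧ ⁅f, w⁆ ∈ W) → W = ⊥ ∨ W = V) ∧
          ∃ x : Option (Fin k × Bool) → LieAlgebra.SpecialLinear.sl (Fin n) ℂ, (∀ a, x a ∈ V) ∧
            (∑ σ : Equiv.Perm (Option (Fin k × Bool)),
              (((Equiv.Perm.sign σ : ℤ) : ℂ) *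
                F (fun j : Option (Fin k) => Option.elim j (x (σ none))
                  (fun i => ⁅x (σ (some (i, false))), x (σ (some (i, true)))⁆)))) ≠ 0 := by
  intro n k hp h e f ht hreg F _ hinv hne
  haveI : Fact (2 * k + 1).Prime := ⟨hp⟩
  exact Run7.h539.wrap n k (fun hkn => Run7.h539.core_prime k n hkn) h e f ht hreg F hinv hne
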