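import Mathlib
import Pool.Agent.Run7.h539.Wrap
import Pool.Agent.Run7.h539.Almost

/-!
# Hitchin's conjecture for `sl_n` in the top degree `2n-1`
-/

set_option autoImplicit false

/-- For every `k` the conjecture on primitive invariant forms and the principal three-dimensional
subalgebra holds for `sl_{k+1}` in its top degree `2k+1`. -/
theorem Pool.Agent.Results.MP_a0341c_al.TopDegree.result :
    ∀ (k : ℕ),
      ∀ (h e f : LieAlgebra.SpecialLinear.sl (Fin (k + 1)) ℂ),
      IsSl2Triple h e f →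
      (∀ y : LieAlgebra.SpecialLinear.sl (Fin (k + 1)) ℂ,
          Module.finrank ℂ (LinearMap.ker
            (LieAlgebra.ad ℂ (LieAlgebra.SpecialLinear.sl (Fin (k + 1)) ℂ) e)) ≤
          Module.finrank ℂ (LinearMap.ker
            (LieAlgebra.ad ℂ (LieAlgebra.SpecialLinear.sl (Fin (k + 1)) ℂ) y))) →
      ∀ (F : MultilinearMap ℂ
          (fun _ : Option (Fin k) => LieAlgebra.SpecialLinear.sl (Fin (k + 1)) ℂ) ℂ),
        (∀ (σ : Equiv.Perm (Option (Fin k)))
            (x : Option (Fin k) → LieAlgebra.SpecialLinear.sl (Fin (k + 1)) ℂ), F (x ∘ σ) = F x) →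
        (∀ (y : LieAlgebra.SpecialLinear.sl (Fin (k + 1)) ℂ)
            (x : Option (Fin k) → LieAlgebra.SpecialLinear.sl (Fin (k + 1)) ℂ),
            ∑ i : Option (Fin k), F (Function.update x i ⁅y, x i⁆) = 0) →
        (∃ x : Option (Fin k × Bool) → LieAlgebra.SpecialLinear.sl (Fin (k + 1)) ℂ,
            (∑ σ : Equiv.Perm (Option (Fin k × Bool)),
              (((Equiv.Perm.sign σ : ℤ) : ℂ) *
                F (fun j : Option (Fin k) => Option.elim j (x (σ none))
                  (fun i => ⁅x (σ (some (i, false))), x (σ (some (i, true)))⁆)))) ≠ 0) →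
        ∃ V : Submodule ℂ (LieAlgebra.SpecialLinear.sl (Fin (k + 1)) ℂ),
          Module.finrank ℂ V = 2 * k + 1 ∧
          (∀ v ∈ V, ⁅e, v⁆ ∈ V ∧ ⁅h, v⁆ ∈ V ∧ ⁅f, v⁆ ∈ V) ∧
          (∀ W : Submodule ℂ (LieAlgebra.SpecialLinear.sl (Fin (k + 1)) ℂ), W ≤ V →
            (∀ w ∈ W, ⁅e, w⁆ ∈ W ∧ ⁅h, w⁆ ∈ W ∧ ⁅f, w⁆ ∈ W) → W = ⊥ ∨ W = V) ∧
          ∃ x : Option (Fin k × Bool) → LieAlgebra.SpecialLinear.sl (Fin (k + 1)) ℂ, (∀ a, x a ∈ V) ∧
            (∑ σ : Equiv.Perm (Option (Fin k × Bool)),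
              (((Equiv.Perm.sign σ : ℤ) : ℂ) *
                F (fun j : Option (Fin k) => Option.elim j (x (σ none))
                  (fun i => ⁅x (σ (some (i, false))), x (σ (some (i, true)))⁆)))) ≠ 0 := by
  intro k h e f ht hreg F _ hinv hne
  exact Run7.h539.wrap (k + 1) k (fun _ => Run7.h539.core_top k) h e f ht hreg F hinv hne
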